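import Pool.Agent.Lib.MP_351e72_co.Defs

/-! Computation of mixed characteristic polynomials along a line. -/

namespace Pool.Agent.Lib.MP_351e72_co

open Polynomial

variable {n : ℕ}

lemma Dv_apply (v : Fin n → ℝ) (g : MvPolynomial (Fin n) ℝ) :
    Dv v g = ∑ i, v i • MvPolynomial.pderiv i g := by
  simp [Dv, LinearMap.sum_apply]

lemma der_line (g : MvPolynomial (Fin n) ℝ) (a b : Fin n → ℝ) :
    derivative (line g a b) = line (Dv a g) a b := by
  classical
  simp only [line, Dv_apply]
  induction g using MvPolynomial.induction_on with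
  | C c => simp
  | add p q hp hq => simp only [map_add, smul_add, Finset.sum_add_distrib, hp, hq]
  | mul_X p i hp =>
    simp only [map_mul, derivative_mul, hp, Derivation.leibniz, MvPolynomial.pderiv_X, smul_add,
      Finset.sum_add_distrib, map_add, map_sum, map_smul, smul_eq_mul, MvPolynomial.aeval_X,
      Pi.single_apply, Finset.sum_mul]
    rw [add_comm]
    congr 1
    · rw [Finset.sum_eq_single i (fun j _ hj => by simp [hj.symm]) (by simp)]
      rw [if_pos rfl, derivative_sub, derivative_C, derivative_C_mul_X, map_one, mul_one, sub_zero,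
        smul_eq_C_mul, mul_comm]
    · exact Finset.sum_congr rfl fun j _ => by rw [smul_mul_assoc, mul_comm]

lemma line_step (g : MvPolynomial (Fin n) ℝ) (a b : Fin n → ℝ) (c : ℝ) :
    line ((1 - Dv (c • a)) g) a b = line g a b - C c * derivative (line g a b) := by
  rw [der_line]
  simp only [line, LinearMap.sub_apply, Module.End.one_apply, map_sub, Dv_apply, map_sum, map_smul,
    Pi.smul_apply, Finset.mul_sum, smul_eq_C_mul, smul_eq_mul, map_mul, mul_assoc]

lemma eval_line (g : MvPolynomial (Fin n) ℝ) (a b : Fin n → ℝ) (t : ℝ) :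
    eval t (line g a b) = MvPolynomial.eval (fun i => a i * t - b i) g := by
  induction g using MvPolynomial.induction_on with
  | C c => simp [line]
  | add p q hp hq => simp only [line, map_add, eval_add] at *; rw [hp, hq]
  | mul_X p i hp => simp only [line, map_mul, eval_mul] at *; rw [hp]; simp

/-- the polynomial with a given list of coefficients -/
noncomputable def ofL : List ℤ → ℝ[X]
  | [] => 0
  | a :: l => C (a : ℝ) + X * ofL l

/-- linear combination of coefficient lists -/
def cb (p q : ℤ) : List ℤ → List ℤ → List ℤ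
  | [], m => m.map (q * ·)
  | a :: l, [] => p * a :: cb p q l []
  | a :: l, b :: m => (p * a + q * b) :: cb p q l m

lemma ofL_map (q : ℤ) (m : List ℤ) : ofL (m.map (q * ·)) = C (q : ℝ) * ofL m := by
  induction m with
  | nil => simp [ofL]
  | cons b m ih => simp only [List.map_cons, ofL, ih, Int.cast_mul, map_mul]; ring

lemma ofL_cb (p q : ℤ) (l m : List ℤ) :
    ofL (cb p q l m) = C (p : ℝ) * ofL l + C (q : ℝ) * ofL m := by
  induction l generalizing m with
  | nil => simp [cb, ofL_map, ofL]
  | cons a l ih =>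
    cases m <;> simp only [cb, ofL, ih, Int.cast_mul, Int.cast_add, map_mul, map_add] <;> ring

/-- coefficients of `k f + X f'` -/
def eu (k : ℤ) : List ℤ → List ℤ
  | [] => []
  | a :: l => k * a :: eu (k + 1) l

lemma ofL_eu (k : ℤ) (l : List ℤ) :
    ofL (eu k l) = C (k : ℝ) * ofL l + X * derivative (ofL l) := by
  induction l generalizing k with
  | nil => simp [eu, ofL]
  | cons a l ih =>
    simp only [eu, ofL, ih, Int.cast_mul, Int.cast_add, map_mul, map_add, Int.cast_one, map_one,
      derivative_mul, derivative_C, derivative_X]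
    ring

/-- coefficients of `q f - p f'` -/
def st (p q : ℤ) (l : List ℤ) : List ℤ := cb q (-p) l (eu 1 l.tail)

lemma ofL_st (p q : ℤ) (l : List ℤ) :
    ofL (st p q l) = C (q : ℝ) * ofL l - C (p : ℝ) * derivative (ofL l) := by
  rw [st, ofL_cb, ofL_eu]
  cases l <;> simp [ofL, derivative_mul, sub_eq_add_neg]

lemma line_iter {g : MvPolynomial (Fin n) ℝ} {a b : Fin n → ℝ} {r : ℝ} {l : List ℤ} (p q : ℤ)
    (hq : (q : ℝ) ≠ 0) (h : line g a b = C r * ofL l) (k : ℕ) :
    line (((1 - Dv (((p : ℝ) / q) • a)) ^ k) g) a b = C (r / q ^ k) * ofL ((st p q)^[k] l) := by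
  induction k with
  | zero => simpa using h
  | succ k ih =>
    rw [pow_succ', Module.End.mul_apply, line_step, ih, Function.iterate_succ_apply', ofL_st,
      derivative_C_mul, mul_sub, ← mul_assoc, ← mul_assoc, ← mul_assoc, ← C_mul, ← C_mul, ← C_mul]
    congr 3 <;> field_simp <;> ring

/-- coefficients of `(61 + X) ^ k` -/
def pw (k : ℕ) : List ℤ := (fun l => cb 61 1 l (0 :: l))^[k] [1]

lemma ofL_pw (k : ℕ) : ofL (pw k) = (C 61 + X) ^ k := by
  induction k with
  | zero => simp [pw, ofL]
  | succ k ih =>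
    rw [pw, Function.iterate_succ_apply', ← pw, ofL_cb, ofL, ih]
    simp only [Int.cast_ofNat, Int.cast_one, Int.cast_zero, map_one, map_zero]
    ring

lemma ofL_nonneg {l : List ℤ} (h : ∀ a ∈ l, 0 ≤ a) {u : ℝ} (hu : 0 ≤ u) : 0 ≤ eval u (ofL l) := by
  induction l with
  | nil => simp [ofL]
  | cons a l ih =>
    have h1 : (0 : ℝ) ≤ a := by exact_mod_cast h a (by simp)
    have h2 := ih fun b hb => h b (by simp [hb])
    simp only [ofL, eval_add, eval_C, eval_mul, eval_X]
    positivity

lemma ofL_pos {l : List ℤ} (h : ∀ a ∈ l, 0 ≤ a) (h0 : 0 < l.headD 0) {u : ℝ} (hu : 0 ≤ u) :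
    0 < eval u (ofL l) := by
  cases l with
  | nil => simp at h0
  | cons a l =>
    have h1 : (0 : ℝ) < a := by exact_mod_cast h0
    have h2 := ofL_nonneg (l := l) (fun b hb => h b (by simp [hb])) hu
    simp only [ofL, eval_add, eval_C, eval_mul, eval_X]
    positivity

lemma ofL_zero (l : List ℤ) : eval 0 (ofL l) = l.headD 0 := by cases l <;> simp [ofL]

lemma ofL_one (l : List ℤ) : eval 1 (ofL l) = l.sum := by
  induction l with
  | nil => simp [ofL]
  | cons a l ih => simp [ofL, ih]

lemma num1 : ((st 2 9)^[90] (pw 60)).headD 0 < 0 ∧ 0 < ((st 2 9)^[90] (pw 60)).sum := by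
  decide +kernel

lemma num2 : (∀ a ∈ (st 40 183)^[91] ((st 20 183)^[1] (pw 61)), 0 ≤ a) ∧
    0 < ((st 40 183)^[91] ((st 20 183)^[1] (pw 61))).headD 0 := by
  decide +kernel

end Pool.Agent.Lib.MP_351e72_co
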