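import Mathlib

/-! Hyperbolic polynomials and mixed characteristic polynomials. -/

namespace Pool.Agent.Lib.MP_351e72_co

open Polynomial

/-- the directional derivative in the direction `v` -/
noncomputable def Dv {n : ℕ} (v : Fin n → ℝ) : Module.End ℝ (MvPolynomial (Fin n) ℝ) :=
  ∑ i, v i • (MvPolynomial.pderiv (R := ℝ) i).toLinearMap

/-- the polynomial `t ↦ h (t e - x)` -/
noncomputable def line {n : ℕ} (h : MvPolynomial (Fin n) ℝ) (e x : Fin n → ℝ) : ℝ[X] :=
  MvPolynomial.aeval (fun i => C (e i) * X - C (x i)) h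

/-- the mixed characteristic polynomial of the vectors in the list `v` -/
noncomputable def chi {n : ℕ} (h : MvPolynomial (Fin n) ℝ) (e : Fin n → ℝ)
    (v : List (Fin n → ℝ)) : ℝ[X] :=
  line ((v.map fun w => 1 - Dv w).prod h) e 0

/-- admissible lists: nonnegative eigenvalues, sum `e`, traces at most `ε` -/
def Adm {n : ℕ} (h : MvPolynomial (Fin n) ℝ) (e : Fin n → ℝ) (ε : ℝ)
    (v : List (Fin n → ℝ)) : Prop :=
  (∀ w ∈ v, ∀ r ∈ (line h e w).roots, 0 ≤ r) ∧ v.sum = e ∧ ∀ w ∈ v, (line h e w).roots.sum ≤ ε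

end Pool.Agent.Lib.MP_351e72_co
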