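import Mathlib

/-! Hyperbolic polynomials in variables indexed by a finite type, mixed characteristic
polynomials, and the determinant on symmetric matrices. -/

namespace Pool.Agent.Lib.MP_351e72_co.G

open Polynomial

variable {σ : Type} [Fintype σ]

/-- the directional derivative in the direction `v` -/
noncomputable def Dv (v : σ → ℝ) : Module.End ℝ (MvPolynomial σ ℝ) :=
  ∑ i, v i • (MvPolynomial.pderiv (R := ℝ) i).toLinearMap

/-- the polynomial `t ↦ h (t e - x)` -/
noncomputable def line (h : MvPolynomial σ ℝ) (e x : σ → ℝ) : ℝ[X] :=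
  MvPolynomial.aeval (fun i => C (e i) * X - C (x i)) h

/-- the mixed characteristic polynomial of the vectors in the list `v` -/
noncomputable def chi (h : MvPolynomial σ ℝ) (e : σ → ℝ) (v : List (σ → ℝ)) : ℝ[X] :=
  line ((v.map fun w => 1 - Dv w).prod h) e 0

/-- admissible lists: nonnegative eigenvalues, sum `e`, traces at most `ε` -/
def Adm (h : MvPolynomial σ ℝ) (e : σ → ℝ) (ε : ℝ) (v : List (σ → ℝ)) : Prop :=
  (∀ w ∈ v, ∀ r ∈ (line h e w).roots, 0 ≤ r) ∧ v.sum = e ∧ ∀ w ∈ v, (line h e w).roots.sum ≤ ε

/-- the determinant of the generic symmetric `d × d` matrix: one variable for each unordered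
pair of indices -/
noncomputable def sdet (d : ℕ) : MvPolynomial (Sym2 (Fin d)) ℝ :=
  (Matrix.of fun i j : Fin d => (MvPolynomial.X s(i, j) : MvPolynomial (Sym2 (Fin d)) ℝ)).det

/-- the identity matrix in the coordinates of symmetric matrices -/
def idm (d : ℕ) : Sym2 (Fin d) → ℝ := fun p => if p.IsDiag then 1 else 0

end Pool.Agent.Lib.MP_351e72_co.G
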