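import Pool.Agent.Lib.MP_351e72_co.Calc

/-! The example `h = x y ^ 60`. -/

namespace Pool.Agent.Lib.MP_351e72_co

open Polynomial

/-- the polynomial `x y ^ 60` -/
noncomputable def hh : MvPolynomial (Fin 2) ℝ := MvPolynomial.X 0 * MvPolynomial.X 1 ^ 60

/-- the direction `(1, 1)` -/
def ee : Fin 2 → ℝ := fun _ => 1

/-- the competing list -/
noncomputable def vv : List (Fin 2 → ℝ) :=
  List.replicate 90 ![0, 1 / 90] ++ [![2 / 3, 0], ![1 / 3, 0]]

lemma hh_hom : hh.IsHomogeneous 61 :=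
  (MvPolynomial.isHomogeneous_X ℝ (0 : Fin 2)).mul ((MvPolynomial.isHomogeneous_X ℝ 1).pow 60)

lemma line_hh (x : Fin 2 → ℝ) : line hh ee x = (X - C (x 0)) * (X - C (x 1)) ^ 60 := by
  simp [line, hh, ee]

lemma roots_hh (x : Fin 2 → ℝ) : (line hh ee x).roots = {x 0} + 60 • {x 1} := by
  rw [line_hh, roots_mul (mul_ne_zero (X_sub_C_ne_zero _) (pow_ne_zero _ (X_sub_C_ne_zero _))),
    roots_pow, roots_X_sub_C, roots_X_sub_C]

lemma sum_aux (a b : ℝ) (k : ℕ) : (({a} : Multiset ℝ) + k • {b}).sum = a + k * b := by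
  rw [Multiset.sum_add, Multiset.sum_nsmul, Multiset.sum_singleton, Multiset.sum_singleton,
    nsmul_eq_mul]

lemma mem_aux {a b r : ℝ} {k : ℕ} (h : r ∈ ({a} : Multiset ℝ) + k • {b}) : r = a ∨ r = b :=
  (Multiset.mem_add.1 h).imp Multiset.mem_singleton.1
    fun h => Multiset.mem_singleton.1 (Multiset.mem_of_mem_nsmul h)

lemma eval_iter {n : ℕ} {g : MvPolynomial (Fin n) ℝ} {a b : Fin n → ℝ} {r : ℝ} {f : ℝ[X]}
    (h : line g a b = C r * f) (u : ℝ) :
    MvPolynomial.eval (fun i => a i * u - b i) g = r * eval u f := by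
  rw [← eval_line, h, eval_mul, eval_C]

lemma chi_rep {n : ℕ} (h : MvPolynomial (Fin n) ℝ) (e w : Fin n → ℝ) (k : ℕ)
    (l : List (Fin n → ℝ)) (t : ℝ) : eval t (chi h e (List.replicate k w ++ l)) =
    MvPolynomial.eval (fun i => e i * t)
      (((1 - Dv w) ^ k) ((l.map fun w => 1 - Dv w).prod h)) := by
  rw [chi, eval_line, List.map_append, List.prod_append, List.map_replicate, List.prod_replicate,
    Module.End.mul_apply]
  simp

lemma adm_hh {ε : ℝ} {v : List (Fin 2 → ℝ)} (h : ∀ w ∈ v, 0 ≤ w 0 ∧ 0 ≤ w 1 ∧ w 0 + 60 * w 1 ≤ ε)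
    (hs : v.sum = ee) : Adm hh ee ε v := by
  refine ⟨fun w hw r hr => ?_, hs, fun w hw => ?_⟩
  · rw [roots_hh] at hr
    rcases mem_aux hr with rfl | rfl
    exacts [(h w hw).1, (h w hw).2.1]
  · rw [roots_hh, sum_aux]
    exact_mod_cast (h w hw).2.2

lemma stepx (c r : ℝ) : (1 - Dv ![c, 0]) ((MvPolynomial.X 0 - MvPolynomial.C r) *
    MvPolynomial.X 1 ^ 60 : MvPolynomial (Fin 2) ℝ) =
    (MvPolynomial.X 0 - MvPolynomial.C (r + c)) * MvPolynomial.X 1 ^ 60 := by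
  rw [LinearMap.sub_apply, Module.End.one_apply, Dv_apply, Fin.sum_univ_two]
  simp [Derivation.leibniz, Derivation.leibniz_pow, MvPolynomial.smul_eq_C_mul]
  ring

lemma lin_eq : (C (1 / 20 : ℝ) * X - C (-(61 / 20))) = C (1 / 20) * (C 61 + X) := by
  rw [mul_add, ← C_mul, C_neg]
  norm_num [add_comm]

lemma chi_vv (u : ℝ) : eval ((61 + u) / 20) (chi hh ee vv) =
    ((61 + u) / 20 - 1) * (1 / 20) ^ 60 / (9 : ℤ) ^ 90 *
      eval u (ofL ((st 2 9)^[90] (pw 60))) := by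
  have h0 : hh = (MvPolynomial.X 0 - MvPolynomial.C 0) * MvPolynomial.X 1 ^ 60 := by simp [hh]
  have h1 : (![0, 1 / 90] : Fin 2 → ℝ) = (((2 : ℤ) : ℝ) / (9 : ℤ)) • ![0, 1 / 20] := by
    ext i; fin_cases i <;> norm_num
  have h2 : line ((MvPolynomial.X 0 - MvPolynomial.C (0 + 1 / 3 + 2 / 3)) *
      MvPolynomial.X 1 ^ 60 : MvPolynomial (Fin 2) ℝ) ![0, 1 / 20]
      ![-((61 + u) / 20), -(61 / 20)] =
      C (((61 + u) / 20 - 1) * (1 / 20) ^ 60) * ofL (pw 60) := by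
    rw [ofL_pw, line, map_mul, map_pow, map_sub, MvPolynomial.aeval_X, MvPolynomial.aeval_X,
      MvPolynomial.aeval_C]
    simp only [Matrix.cons_val_zero, Matrix.cons_val_one]
    rw [lin_eq, mul_pow, Polynomial.algebraMap_eq, show (0 + 1 / 3 + 2 / 3 : ℝ) = 1 by norm_num,
      C_mul, C_pow, C_sub, C_neg, C_0, zero_mul, zero_sub, neg_neg, mul_assoc]
  have h3 := eval_iter (line_iter 2 9 (by norm_num) h2 90) u
  rw [← h3, vv, chi_rep, List.map_cons, List.map_cons, List.map_nil,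
    List.prod_cons, List.prod_cons, List.prod_nil, mul_one, Module.End.mul_apply, h0, stepx, stepx,
    h1]
  generalize ((1 - Dv _ : Module.End ℝ _) ^ 90) _ = g
  refine congrArg (fun f => MvPolynomial.eval f g) (funext fun i => ?_)
  fin_cases i <;> simp [ee] <;> ring

lemma chi_conj (u : ℝ) : eval ((61 + u) / 20)
    (chi hh ee (List.replicate 91 ((2 / 183 : ℝ) • ee) ++ [(1 / 183 : ℝ) • ee])) =
    (1 / 20) ^ 61 / (183 : ℤ) ^ 1 / (183 : ℤ) ^ 91 *
      eval u (ofL ((st 40 183)^[91] ((st 20 183)^[1] (pw 61)))) := by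
  have h1 : (2 / 183 : ℝ) • ee = (((40 : ℤ) : ℝ) / (183 : ℤ)) • fun _ => (1 / 20 : ℝ) := by
    ext i; norm_num [ee]
  have h1' : (1 / 183 : ℝ) • ee = (((20 : ℤ) : ℝ) / (183 : ℤ)) • fun _ => (1 / 20 : ℝ) := by
    ext i; norm_num [ee]
  have h2 : line hh (fun _ => (1 / 20 : ℝ)) (fun _ => -(61 / 20)) =
      C ((1 / 20) ^ 61) * ofL (pw 61) := by
    rw [ofL_pw, line, hh, map_mul, map_pow, MvPolynomial.aeval_X, MvPolynomial.aeval_X, lin_eq,
      C_pow, ← pow_succ', mul_pow]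
  have h3 := eval_iter (line_iter 40 183 (by norm_num)
    (line_iter 20 183 (by norm_num) h2 1) 91) u
  rw [← h3, chi_rep, List.map_cons, List.map_nil,
    List.prod_cons, List.prod_nil, mul_one, h1, h1', pow_one]
  refine congrArg (fun f => MvPolynomial.eval f _) (funext fun i => ?_)
  simp [ee]; ring

lemma root_vv : ∃ t, 61 / 20 ≤ t ∧ t ∈ (chi hh ee vv).roots := by
  obtain ⟨u, hu, hz⟩ : (0 : ℝ) ∈ (fun u => eval u (ofL ((st 2 9)^[90] (pw 60)))) '' Set.Icc 0 1 := by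
    refine intermediate_value_Icc zero_le_one (Polynomial.continuous _).continuousOn ⟨?_, ?_⟩
    · rw [ofL_zero]; exact_mod_cast num1.1.le
    · rw [ofL_one]; exact_mod_cast num1.2.le
  refine ⟨(61 + u) / 20, by linarith [hu.1], (mem_roots ?_).2 ?_⟩
  · intro h
    have h1 := chi_vv 1
    have h2 : (0 : ℝ) < (((st 2 9)^[90] (pw 60)).sum : ℤ) := by exact_mod_cast num1.2
    rw [h, eval_zero, ofL_one] at h1
    exact absurd h1 (ne_of_lt (by positivity))
  · rw [IsRoot, chi_vv]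
    exact mul_eq_zero_of_right _ hz

lemma root_conj {s : ℝ} (hs : (chi hh ee
    (List.replicate 91 ((2 / 183 : ℝ) • ee) ++ [(1 / 183 : ℝ) • ee])).IsRoot s) : s < 61 / 20 := by
  by_contra h
  have h1 := chi_conj (20 * s - 61)
  have h2 := ofL_pos num2.1 num2.2 (u := 20 * s - 61) (by linarith [not_lt.1 h])
  rw [show (61 + (20 * s - 61)) / 20 = s by ring, hs.eq_zero] at h1
  exact absurd h1 (ne_of_lt (by positivity))

end Pool.Agent.Lib.MP_351e72_co
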