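import Pool.Agent.Lib.MP_351e72_co.Ex
import Pool.Agent.Lib.MP_351e72_co.DefsG

/-! Pull-back along a linear map; the determinant on diagonal matrices. -/

namespace Pool.Agent.Lib.MP_351e72_co

open Polynomial

section pull

variable {σ : Type} [Fintype σ] {n : ℕ} (c : σ → Fin n → ℝ)

/-- the linear map with matrix `c` -/
def ph : (Fin n → ℝ) →ₗ[ℝ] (σ → ℝ) where
  toFun u := fun p => ∑ i, c p i * u i
  map_add' u v := by ext p; simp [mul_add, Finset.sum_add_distrib]
  map_smul' a u := by ext p; simp [Finset.mul_sum, mul_left_comm]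

omit [Fintype σ] in
lemma ph_apply (u : Fin n → ℝ) (p : σ) : ph c u p = ∑ i, c p i * u i := rfl

/-- substitution of the linear forms of `c` -/
noncomputable def pb : MvPolynomial σ ℝ →ₐ[ℝ] MvPolynomial (Fin n) ℝ :=
  MvPolynomial.aeval fun p => ∑ i, c p i • MvPolynomial.X i

lemma GDv_apply (v : σ → ℝ) (g : MvPolynomial σ ℝ) :
    G.Dv v g = ∑ i, v i • MvPolynomial.pderiv i g := by
  simp [G.Dv, LinearMap.sum_apply]

lemma GDv_mul (v : σ → ℝ) (p q : MvPolynomial σ ℝ) :
    G.Dv v (p * q) = p * G.Dv v q + q * G.Dv v p := by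
  simp only [GDv_apply, Derivation.leibniz, smul_eq_mul, smul_add, Finset.sum_add_distrib,
    Finset.mul_sum, mul_smul_comm]

lemma GDv_X (v : σ → ℝ) (p : σ) : G.Dv v (MvPolynomial.X p) = MvPolynomial.C (v p) := by
  classical
  rw [GDv_apply, Finset.sum_eq_single p (fun j _ hj => by
    simp [MvPolynomial.pderiv_X, Pi.single_apply, hj.symm]) (by simp)]
  simp [MvPolynomial.smul_eq_C_mul]

lemma pb_Dv (u : Fin n → ℝ) (g : MvPolynomial σ ℝ) :
    pb c (G.Dv (ph c u) g) = G.Dv u (pb c g) := by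
  induction g using MvPolynomial.induction_on with
  | C a => simp [GDv_apply, pb]
  | add p q hp hq => simp only [map_add, hp, hq]
  | mul_X p i hp =>
    have h : G.Dv u (pb c (MvPolynomial.X i)) = pb c (G.Dv (ph c u) (MvPolynomial.X i)) := by
      rw [GDv_X, pb, MvPolynomial.aeval_X, MvPolynomial.aeval_C, map_sum, ph_apply,
        MvPolynomial.algebraMap_eq, map_sum]
      refine Finset.sum_congr rfl fun j _ => ?_
      rw [map_smul, GDv_X, MvPolynomial.smul_eq_C_mul, map_mul]
    rw [GDv_mul, map_add, map_mul, map_mul, map_mul, GDv_mul, hp, h]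

omit [Fintype σ] in
lemma line_pb (g : MvPolynomial σ ℝ) (a b : Fin n → ℝ) :
    G.line g (ph c a) (ph c b) = line (pb c g) a b := by
  rw [G.line, line, pb, ← AlgHom.comp_apply, MvPolynomial.comp_aeval]
  refine congrArg (fun f => MvPolynomial.aeval f g) (funext fun p => ?_)
  simp only [ph_apply, map_sum, map_smul, MvPolynomial.aeval_X, smul_eq_C_mul, map_mul,
    Finset.sum_mul, ← Finset.sum_sub_distrib]
  exact Finset.sum_congr rfl fun j _ => by ring

lemma pb_prod (l : List (Fin n → ℝ)) (g : MvPolynomial σ ℝ) :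
    pb c (((l.map (ph c)).map fun w => 1 - G.Dv w).prod g) =
      (l.map fun w => 1 - Dv w).prod (pb c g) := by
  induction l with
  | nil => simp
  | cons a l ih =>
    simp only [List.map_cons, List.prod_cons, Module.End.mul_apply, LinearMap.sub_apply,
      Module.End.one_apply, map_sub, pb_Dv, ih]
    rfl

lemma chi_pb (g : MvPolynomial σ ℝ) (e : Fin n → ℝ) (l : List (Fin n → ℝ)) :
    G.chi g (ph c e) (l.map (ph c)) = chi (pb c g) e l := by
  rw [G.chi, chi, ← pb_prod, ← line_pb, map_zero]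

omit [Fintype σ] in
lemma adm_pb {g : MvPolynomial σ ℝ} {e : Fin n → ℝ} {ε : ℝ} {l : List (Fin n → ℝ)}
    (h : Adm (pb c g) e ε l) : G.Adm g (ph c e) ε (l.map (ph c)) := by
  refine ⟨fun w hw => ?_, by rw [← map_list_sum, h.2.1], fun w hw => ?_⟩
  · obtain ⟨u, hu, rfl⟩ := List.mem_map.1 hw
    rw [line_pb]; exact h.1 u hu
  · obtain ⟨u, hu, rfl⟩ := List.mem_map.1 hw
    rw [line_pb]; exact h.2.2 u hu

end pull

lemma sdet_hom (d : ℕ) : (G.sdet d).IsHomogeneous d := by
  rw [G.sdet, Matrix.det_apply']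
  refine MvPolynomial.IsHomogeneous.sum _ _ _ fun s _ => ?_
  have h := MvPolynomial.IsHomogeneous.prod (Finset.univ : Finset (Fin d))
    (fun i => (MvPolynomial.X s(s i, i) : MvPolynomial (Sym2 (Fin d)) ℝ)) (fun _ => 1)
    fun i _ => MvPolynomial.isHomogeneous_X ℝ _
  rw [Finset.sum_const, Finset.card_univ, Fintype.card_fin, smul_eq_mul, mul_one] at h
  have h2 := (MvPolynomial.isHomogeneous_C (Sym2 (Fin d)) ((Equiv.Perm.sign s : ℤ) : ℝ)).mul h
  rw [zero_add, map_intCast] at h2
  exact h2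

lemma sdet_idm (d : ℕ) : MvPolynomial.eval (G.idm d) (G.sdet d) = 1 := by
  rw [G.sdet, RingHom.map_det, ← Matrix.det_one (n := Fin d) (R := ℝ)]
  congr 1
  ext i j
  simp [G.idm, Matrix.one_apply]

lemma line_sdet (d : ℕ) (x : Sym2 (Fin d) → ℝ) :
    G.line (G.sdet d) (G.idm d) x = (Matrix.of fun i j : Fin d => x s(i, j)).charpoly := by
  rw [G.line, G.sdet, AlgHom.map_det, Matrix.charpoly]
  congr 1
  ext1 i j
  by_cases h : i = j
  · subst h; simp [G.idm]
  · simp [G.idm, h]

lemma splits_sdet (d : ℕ) (x : Sym2 (Fin d) → ℝ) : (G.line (G.sdet d) (G.idm d) x).Splits := by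
  rw [line_sdet]
  refine Matrix.IsHermitian.splits_charpoly ?_
  ext i j
  simp [Sym2.eq_swap]

/-- the map `(a, b) ↦ diag (a, b, …, b)` -/
def cc (d : ℕ) : Sym2 (Fin (d + 1)) → Fin 2 → ℝ := fun p i =>
  if p.IsDiag then (if p = s(0, 0) then (if i = 0 then 1 else 0) else (if i = 1 then 1 else 0))
  else 0

lemma ph_ee (d : ℕ) : ph (cc d) ee = G.idm (d + 1) := by
  ext p
  rw [ph_apply, Fin.sum_univ_two]
  simp only [cc, ee, G.idm]
  split_ifs <;> simp_all

lemma pb_sdet (d : ℕ) :
    pb (cc d) (G.sdet (d + 1)) = MvPolynomial.X 0 * MvPolynomial.X 1 ^ d := by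
  have h : (pb (cc d)).mapMatrix (Matrix.of fun i j : Fin (d + 1) =>
      (MvPolynomial.X s(i, j) : MvPolynomial (Sym2 (Fin (d + 1))) ℝ)) =
      Matrix.diagonal fun i => if i = 0 then MvPolynomial.X 0 else MvPolynomial.X 1 := by
    ext1 i j
    rw [AlgHom.mapMatrix_apply, Matrix.map_apply, Matrix.of_apply, pb, MvPolynomial.aeval_X,
      Fin.sum_univ_two]
    by_cases h : i = j
    · subst h
      by_cases h0 : i = 0
      · subst h0; simp [cc]
      · simp [cc, h0]
    · simp [cc, h]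
  rw [G.sdet, AlgHom.map_det, h, Matrix.det_diagonal, Fin.prod_univ_succ, if_pos rfl,
    Finset.prod_congr rfl (fun i _ => if_neg (Fin.succ_ne_zero i)), Finset.prod_const,
    Finset.card_univ, Fintype.card_fin]

lemma pb_hh : pb (cc 60) (G.sdet (60 + 1)) = hh := pb_sdet 60

/-- the conjectured extremal list for the example -/
noncomputable def ww : List (Fin 2 → ℝ) :=
  List.replicate 91 ((2 / 183 : ℝ) • ee) ++ [(1 / 183 : ℝ) • ee]

lemma adm_vv : Adm hh ee (2 / 3) vv := by
  refine adm_hh (fun w hw => ?_) ?_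
  · rcases List.mem_append.1 hw with hw | hw
    · rw [List.eq_of_mem_replicate hw]; norm_num
    · simp only [List.mem_cons, List.not_mem_nil, or_false] at hw
      rcases hw with rfl | rfl <;> norm_num
  · rw [vv, List.sum_append, List.sum_replicate]
    ext i; fin_cases i <;> norm_num [ee]

lemma adm_ww : Adm hh ee (2 / 3) ww := by
  refine adm_hh (fun w hw => ?_) ?_
  · rcases List.mem_append.1 hw with hw | hw
    · rw [List.eq_of_mem_replicate hw]; norm_num [ee]
    · rw [List.mem_singleton.1 hw]; norm_num [ee]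
  · rw [ww, List.sum_append, List.sum_replicate]
    ext i; norm_num [ee]

end Pool.Agent.Lib.MP_351e72_co
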